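import Pool.Agent.R110.Had.Yam
import Pool.Agent.Y342.SK.Sym

/-!
# Hadamard matrices of order `4 (q + 2)` for prime powers `q = -3` modulo a power of two
-/

set_option autoImplicit false
set_option linter.unusedSectionVars false

namespace Pool.Agent.R110.Had

open Finset Matrix
open Pool.Agent.H108R3.Had (HasHad)
open Pool.Agent.TH432.Had (chi_neg_one chi_neg chi_sq char_ne_two sum_chi)

section field

variable {F : Type} [Field F] [Fintype F] [DecidableEq F]

/-- the squares -/
abbrev Sq (F : Type) [Field F] : Type := {x : F // IsSquare x}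

/-- zero as a square -/
def zSq : Sq F := ⟨0, ⟨0, by simp⟩⟩

theorem chi_of_sq {x : F} (h : IsSquare x) (h0 : x ≠ 0) : quadraticChar F x = 1 :=
  (quadraticChar_one_iff_isSquare h0).2 h

theorem chi_of_nsq {x : F} (h : ¬ IsSquare x) : quadraticChar F x = -1 :=
  quadraticChar_neg_one_iff_not_isSquare.2 h

theorem nsq_ne_zero {x : F} (h : ¬ IsSquare x) : x ≠ 0 := by
  rintro rfl
  exact h ⟨0, by simp⟩

theorem chi_div_nsq {μ w : F} (hμ : ¬ IsSquare μ) (hw : ¬ IsSquare w) : IsSquare (μ / w) := by
  have hw0 := nsq_ne_zero hw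
  have hμ0 := nsq_ne_zero hμ
  have h1 : quadraticChar F (μ / w) * quadraticChar F w = quadraticChar F μ := by
    rw [← map_mul, div_mul_cancel₀ _ hw0]
  rw [chi_of_nsq hμ, chi_of_nsq hw] at h1
  rw [← quadraticChar_one_iff_isSquare (div_ne_zero hμ0 hw0)]
  linarith

theorem chi_div_sq {μ z : F} (hμ : ¬ IsSquare μ) (hz : IsSquare z) (hz0 : z ≠ 0) :
    ¬ IsSquare (μ / z) := by
  intro h
  apply hμ
  have : μ = (μ / z) * z := by rw [div_mul_cancel₀ _ hz0]
  rw [this]
  exact h.mul hz

/-- squares and nonsquares -/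
theorem sum_split {μ : F} (hμ : ¬ IsSquare μ) (f : F → ℤ) :
    ∑ w, f w = ∑ z : Sq F, f z + (∑ z : Sq F, f (μ / z) - f 0) := by
  have hμ0 := nsq_ne_zero hμ
  have h1 := Fintype.sum_subtype_add_sum_subtype (fun x : F => IsSquare x) f
  rw [← h1]
  have h2 : ∑ z : Sq F, f (μ / z) - f 0 = ∑ z : {z : Sq F // z ≠ zSq}, f (μ / (z : Sq F)) := by
    rw [Fintype.sum_eq_add_sum_subtype_ne (fun z : Sq F => f (μ / z)) zSq]
    simp [zSq]
  rw [h2]
  congr 1
  · let e : {w : F // ¬ IsSquare w} ≃ {z : Sq F // z ≠ zSq} :=
      { toFun := fun w => ⟨⟨μ / w, chi_div_nsq hμ w.2⟩, by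
          intro h
          have h3 := congrArg Subtype.val h
          simp only [zSq] at h3
          exact (div_ne_zero hμ0 (nsq_ne_zero w.2)) h3⟩
        invFun := fun z => ⟨μ / (z : Sq F), chi_div_sq hμ z.1.2 (by
          intro h
          exact z.2 (Subtype.ext h))⟩
        left_inv := by
          intro w
          ext
          have := nsq_ne_zero w.2
          simp only
          field_simp
        right_inv := by
          intro z
          have hz : (z.1 : F) ≠ 0 := by
            intro h
            exact z.2 (Subtype.ext h)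
          ext
          simp only
          field_simp }
    refine Fintype.sum_equiv e _ _ fun w => ?_
    have := nsq_ne_zero w.2
    simp only [e, Equiv.coe_fn_mk]
    congr 1
    field_simp

theorem card_sq {μ : F} (hμ : ¬ IsSquare μ) : 2 * (Fintype.card (Sq F) : ℤ) = Fintype.card F + 1 := by
  have h := sum_split hμ (fun _ : F => (1 : ℤ))
  simp only [sum_const, card_univ, nsmul_eq_mul, mul_one] at h
  linarith

theorem chi_sub_div {μ : F} (z : F) (hz : IsSquare z) (hz0 : z ≠ 0) (x : F) :
    quadraticChar F (x - μ / z) = quadraticChar F (x * z - μ) := by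
  have h1 : x - μ / z = (x * z - μ) / z := by field_simp
  have h2 : quadraticChar F ((x * z - μ) / z) * quadraticChar F z = quadraticChar F (x * z - μ) := by
    rw [← map_mul, div_mul_cancel₀ _ hz0]
  rw [chi_of_sq hz hz0, mul_one] at h2
  rw [h1, h2]

theorem chi_zero_mul {μ : F} (h4 : Fintype.card F % 4 = 1) (hμ : ¬ IsSquare μ) :
    quadraticChar F (-μ) = -1 := by
  rw [chi_neg h4, chi_of_nsq hμ]

theorem sum_AB {μ : F} (h4 : Fintype.card F % 4 = 1) (hμ : ¬ IsSquare μ) (x y : F) :
    ∑ z : Sq F, quadraticChar F (x - z) * quadraticChar F (y - z) +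
      ∑ z : Sq F, quadraticChar F (x * z - μ) * quadraticChar F (y * z - μ) =
      if x = y then (Fintype.card F : ℤ) else 0 := by
  have h1 := sum_split hμ (fun w => quadraticChar F (x - w) * quadraticChar F (y - w))
  rw [sum_chi h4] at h1
  have h2 : ∑ z : Sq F, quadraticChar F (x * z - μ) * quadraticChar F (y * z - μ) =
      1 + (∑ z : Sq F, quadraticChar F (x - μ / z) * quadraticChar F (y - μ / z) -
        quadraticChar F (x - 0) * quadraticChar F (y - 0)) := by
    rw [Fintype.sum_eq_add_sum_subtype_ne _ (zSq : Sq F),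
      Fintype.sum_eq_add_sum_subtype_ne (fun z : Sq F => quadraticChar F (x - μ / z) *
        quadraticChar F (y - μ / z)) (zSq : Sq F)]
    have h3 : ∑ z : {z : Sq F // z ≠ zSq}, quadraticChar F (x * (z : Sq F) - μ) *
        quadraticChar F (y * (z : Sq F) - μ) = ∑ z : {z : Sq F // z ≠ zSq},
        quadraticChar F (x - μ / (z : Sq F)) * quadraticChar F (y - μ / (z : Sq F)) := by
      refine sum_congr rfl fun z _ => ?_
      have hz : (z.1 : F) ≠ 0 := fun h => z.2 (Subtype.ext h)
      rw [chi_sub_div _ z.1.2 hz, chi_sub_div _ z.1.2 hz]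
    rw [h3]
    have h5 := chi_zero_mul h4 hμ
    simp [zSq, h5]
  rw [h2]
  linarith

theorem sum_BA' {μ : F} (h4 : Fintype.card F % 4 = 1) (hμ : ¬ IsSquare μ) {x y : F}
    (hx : IsSquare x) (hy : IsSquare y) (hy0 : y ≠ 0) :
    ∑ z : Sq F, quadraticChar F (x - z) * quadraticChar F (y * z - μ) -
      ∑ z : Sq F, quadraticChar F (x * z - μ) * quadraticChar F (y - z) = 0 := by
  have hxv : x ≠ μ / y := fun h => chi_div_sq hμ hy hy0 (h ▸ hx)
  have h1 := sum_split hμ (fun w => quadraticChar F (x - w) * quadraticChar F (μ / y - w))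
  rw [sum_chi h4, if_neg hxv] at h1
  have hyc := chi_of_sq hy hy0
  have e1 : ∀ z : F, quadraticChar F (μ / y - z) = quadraticChar F (y * z - μ) := by
    intro z
    have h3 : quadraticChar F (μ / y - z) * quadraticChar F y = quadraticChar F (μ - y * z) := by
      rw [← map_mul]
      congr 1
      field_simp
    rw [hyc, mul_one] at h3
    rw [h3, ← chi_neg h4]
    congr 1
    ring
  have e2 : ∀ z : F, IsSquare z → z ≠ 0 →
      quadraticChar F (μ / y - μ / z) = - quadraticChar F (y - z) := by
    intro z hz hz0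
    have h3 : quadraticChar F (μ / y - μ / z) * (quadraticChar F y * quadraticChar F z) =
        quadraticChar F μ * quadraticChar F (z - y) := by
      rw [← map_mul, ← map_mul, ← map_mul]
      congr 1
      field_simp
    rw [hyc, chi_of_sq hz hz0, chi_of_nsq hμ] at h3
    have h5 : quadraticChar F (z - y) = quadraticChar F (y - z) := by
      rw [← chi_neg h4]; congr 1; ring
    rw [h5] at h3
    linarith
  have h2 : ∑ z : Sq F, quadraticChar F (x * z - μ) * quadraticChar F (y - z) =
      -1 - (∑ z : Sq F, quadraticChar F (x - μ / z) * quadraticChar F (μ / y - μ / z) -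
        quadraticChar F (x - 0) * quadraticChar F (μ / y - 0)) := by
    rw [Fintype.sum_eq_add_sum_subtype_ne _ (zSq : Sq F),
      Fintype.sum_eq_add_sum_subtype_ne (fun z : Sq F => quadraticChar F (x - μ / z) *
        quadraticChar F (μ / y - μ / z)) (zSq : Sq F)]
    have h3 : ∑ z : {z : Sq F // z ≠ zSq}, quadraticChar F (x * (z : Sq F) - μ) *
        quadraticChar F (y - (z : Sq F)) = - ∑ z : {z : Sq F // z ≠ zSq},
        quadraticChar F (x - μ / (z : Sq F)) * quadraticChar F (μ / y - μ / (z : Sq F)) := by
      rw [← sum_neg_distrib]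
      refine sum_congr rfl fun z _ => ?_
      have hz : (z.1 : F) ≠ 0 := fun h => z.2 (Subtype.ext h)
      rw [chi_sub_div _ z.1.2 hz, e2 _ z.1.2 hz]
      ring
    rw [h3]
    have h5 := chi_zero_mul h4 hμ
    simp only [zSq, mul_zero, zero_sub, h5, sub_zero, div_zero, hyc]
    ring
  rw [h2, sum_congr rfl fun z _ => by rw [← e1]]
  linarith

theorem sum_BA {μ : F} (h4 : Fintype.card F % 4 = 1) (hμ : ¬ IsSquare μ) {x y : F}
    (hx : IsSquare x) (hy : IsSquare y) :
    ∑ z : Sq F, quadraticChar F (x - z) * quadraticChar F (y * z - μ) -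
      ∑ z : Sq F, quadraticChar F (x * z - μ) * quadraticChar F (y - z) = 0 := by
  by_cases hy0 : y = 0
  · by_cases hx0 : x = 0
    · rw [hx0, hy0]
      rw [sub_eq_zero]
      exact sum_congr rfl fun z _ => by ring
    · have h := sum_BA' h4 hμ hy hx hx0
      have e1 : ∑ z : Sq F, quadraticChar F (x - z) * quadraticChar F (y * z - μ) =
          ∑ z : Sq F, quadraticChar F (y * z - μ) * quadraticChar F (x - z) :=
        sum_congr rfl fun z _ => by ring
      have e2 : ∑ z : Sq F, quadraticChar F (x * z - μ) * quadraticChar F (y - z) =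
          ∑ z : Sq F, quadraticChar F (y - z) * quadraticChar F (x * z - μ) :=
        sum_congr rfl fun z _ => by ring
      rw [e1, e2]
      linarith
  · exact sum_BA' h4 hμ hx hy hy0

/-- Hadamard matrices of order `4 (q + 2)` -/
theorem had_q_add_two (h4 : Fintype.card F % 4 = 1) {v : ℕ} {S : Fin v → Fin v → ℤ} {e : ℤ}
    (he : e * e = 1) (hS : Pool.Agent.Y342.SK.IsCoreG e S) (hv : 2 * v = Fintype.card F + 1) :
    HasHad (4 * (Fintype.card F + 2)) := by
  obtain ⟨μ, hμ⟩ := FiniteField.exists_nonsquare (char_ne_two h4)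
  have hc := card_sq hμ
  have hcv : Fintype.card (Sq F) = v := by
    zify at hv ⊢
    linarith
  let f : Sq F ≃ Fin v := Fintype.equivFinOfCardEq hcv
  let D : Dat (Sq F) :=
    { A := fun x y => quadraticChar F (x - y)
      B := fun x y => quadraticChar F (x * y - μ)
      S := fun x y => S (f x) (f y)
      l := v
      A0 := fun x => by simp
      A1 := fun x y hxy => quadraticChar_dichotomy (sub_ne_zero.2 fun h => hxy (Subtype.ext h))
      B1 := fun x y => quadraticChar_dichotomy (sub_ne_zero.2 fun h => hμ (h ▸ x.2.mul y.2))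
      As := fun x y => by rw [← chi_neg h4]; congr 1; ring
      Bs := fun x y => by rw [mul_comm]
      AB := fun x y => by
        have h := sum_AB h4 hμ (x : F) (y : F)
        rw [h]
        by_cases hxy : x = y
        · rw [if_pos hxy, if_pos (by rw [hxy])]
          zify at hv
          linarith
        · rw [if_neg hxy, if_neg fun h' => hxy (Subtype.ext h')]
      BA := fun x y => sum_BA h4 hμ x.2 y.2
      S0 := fun x => hS.diag _
      S1 := fun x y hxy => hS.sign _ _ fun h => hxy (f.injective h)
      Sr := fun x => by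
        rw [Equiv.sum_comp f (fun y => S (f x) y)]; exact hS.row _
      Sc := fun y => by
        rw [Equiv.sum_comp f (fun x => S x (f y)), sum_congr rfl fun z _ => hS.sym (f y) z,
          ← mul_sum, hS.row, mul_zero]
      SS := fun x y => by
        rw [Equiv.sum_comp f (fun z => S (f x) z * S (f y) z), hS.mul, Fintype.card_fin]
        by_cases hxy : x = y
        · rw [if_pos hxy, if_pos (by rw [hxy])]
        · rw [if_neg hxy, if_neg fun h' => hxy (f.injective h')]
      SS' := fun x y => by
        rw [Equiv.sum_comp f (fun z => S z (f x) * S z (f y))]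
        have h1 : ∀ z, S z (f x) * S z (f y) = S (f x) z * S (f y) z := by
          intro z
          rw [hS.sym (f x) z, hS.sym (f y) z]
          linear_combination (S (f x) z * S (f y) z) * he
        rw [sum_congr rfl fun z _ => h1 z, hS.mul, Fintype.card_fin]
        by_cases hxy : x = y
        · rw [if_pos hxy, if_pos (by rw [hxy])]
        · rw [if_neg hxy, if_neg fun h' => hxy (f.injective h')]
      hcard := by rw [hcv] }
  refine D.hasHad _ ?_
  show ((4 * (Fintype.card F + 2) : ℕ) : ℤ) = 8 * (v : ℤ) + 4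
  zify at hv
  push_cast
  linarith

end field

end Pool.Agent.R110.Had
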