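import Pool.Agent.R110.Had.Miy2
import Pool.Agent.R110.Had.Fld

/-!
# Hadamard matrices of order `8 v` when `2 v - 3` is a prime power and there is a skew core of
order `v`
-/

set_option autoImplicit false
set_option linter.unusedSectionVars false

namespace Pool.Agent.R110.Had

open Finset Matrix
open Pool.Agent.H108R3.Had (HasHad)
open Pool.Agent.TH432.Had (chi_sq sum_ne_zero)

section field

variable {F : Type} [Field F] [Fintype F] [DecidableEq F]

omit [DecidableEq F] in
theorem char_ne_two3 (h4 : Fintype.card F % 4 = 3) : ringChar F ≠ 2 := by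
  intro h
  have h1 := FiniteField.even_card_of_char_two h
  omega

omit [DecidableEq F] in
theorem neg_one_nsq (h4 : Fintype.card F % 4 = 3) : ¬ IsSquare (-1 : F) := by
  rw [FiniteField.isSquare_neg_one_iff]
  omega

theorem chi3_neg_one (h4 : Fintype.card F % 4 = 3) : quadraticChar F (-1) = -1 :=
  chi_of_nsq (neg_one_nsq h4)

theorem chi3_neg (h4 : Fintype.card F % 4 = 3) (x : F) :
    quadraticChar F (-x) = - quadraticChar F x := by
  rw [← neg_one_mul, map_mul, chi3_neg_one h4, neg_one_mul]

/-- the correlation sum -/
theorem sum_chi3 (h4 : Fintype.card F % 4 = 3) (x y : F) :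
    ∑ z, quadraticChar F (x - z) * quadraticChar F (y - z) =
      (if x = y then (Fintype.card F : ℤ) else 0) - 1 := by
  have hF := char_ne_two3 h4
  have h1 : ∑ z, quadraticChar F (x - z) * quadraticChar F (y - z) =
      ∑ w, quadraticChar F w * quadraticChar F (w + (y - x)) := by
    rw [← Equiv.sum_comp (Equiv.subLeft x)]
    refine sum_congr rfl fun w _ => ?_
    simp only [Equiv.subLeft_apply]
    congr 2 <;> ring
  rw [h1]
  by_cases hxy : x = y
  · subst hxy
    rw [if_pos rfl]
    simp only [sub_self, add_zero]
    have h2 : ∀ w : F, quadraticChar F w * quadraticChar F w = if w = 0 then 0 else 1 := by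
      intro w
      by_cases hw : w = 0
      · subst hw; simp
      · rw [chi_sq hw, if_neg hw]
    rw [sum_congr rfl fun w _ => h2 w]
    have h3 : ∀ w : F, (if w = 0 then (0 : ℤ) else 1) = 1 - if w = 0 then 1 else 0 := by
      intro w; split_ifs <;> norm_num
    rw [sum_congr rfl fun w _ => h3 w, sum_sub_distrib]
    simp
  · rw [if_neg hxy, zero_sub]
    set d := y - x with hd
    have hd0 : d ≠ 0 := sub_ne_zero.2 (Ne.symm hxy)
    have h2 : ∑ w, quadraticChar F w * quadraticChar F (w + d) =
        ∑ w : {x : F // x ≠ 0}, quadraticChar F (1 + d / w) := by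
      rw [sum_ne_zero (fun w => quadraticChar F (1 + d / w))]
      have h3 : ∀ w : F, quadraticChar F w * quadraticChar F (w + d) =
          quadraticChar F (1 + d / w) - if w = 0 then 1 else 0 := by
        intro w
        by_cases hw : w = 0
        · subst hw; simp
        · rw [if_neg hw, sub_zero]
          have h4 : w + d = w * (1 + d / w) := by field_simp
          rw [h4, map_mul, ← mul_assoc, chi_sq hw, one_mul]
      rw [sum_congr rfl fun w _ => h3 w, sum_sub_distrib]
      simp
    rw [h2]
    let e : {x : F // x ≠ 0} ≃ {x : F // x ≠ 0} :=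
      { toFun := fun w => ⟨d / w, div_ne_zero hd0 w.2⟩
        invFun := fun w => ⟨d / w, div_ne_zero hd0 w.2⟩
        left_inv := fun w => by ext; simp [hd0]
        right_inv := fun w => by ext; simp [hd0] }
    have h5 : ∑ w : {x : F // x ≠ 0}, quadraticChar F (1 + d / w) =
        ∑ w : {x : F // x ≠ 0}, quadraticChar F (1 + w) :=
      Equiv.sum_comp e (fun w : {x : F // x ≠ 0} => quadraticChar F (1 + w))
    rw [h5, sum_ne_zero (fun w => quadraticChar F (1 + w))]
    have h6 : ∑ w : F, quadraticChar F (1 + w) = 0 := by
      have h7 := Equiv.sum_comp (Equiv.addLeft (1 : F)) (fun w => quadraticChar F w)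
      simp only [Equiv.coe_addLeft] at h7
      rw [h7]
      exact quadraticChar_sum_zero hF
    rw [h6]
    simp

theorem chi_sub_div3 (z : F) (hz : IsSquare z) (hz0 : z ≠ 0) (x : F) :
    quadraticChar F (x - (-1) / z) = quadraticChar F (x * z + 1) := by
  rw [chi_sub_div z hz hz0, sub_neg_eq_add]

theorem sum_AB3 (h4 : Fintype.card F % 4 = 3) (x y : F) :
    ∑ z : Sq F, quadraticChar F (x - z) * quadraticChar F (y - z) +
      ∑ z : Sq F, quadraticChar F (x * z + 1) * quadraticChar F (y * z + 1) =
      if x = y then (Fintype.card F : ℤ) else 0 := by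
  have hμ := neg_one_nsq h4
  have h1 := sum_split hμ (fun w => quadraticChar F (x - w) * quadraticChar F (y - w))
  rw [sum_chi3 h4] at h1
  have h2 : ∑ z : Sq F, quadraticChar F (x * z + 1) * quadraticChar F (y * z + 1) =
      1 + (∑ z : Sq F, quadraticChar F (x - (-1) / z) * quadraticChar F (y - (-1) / z) -
        quadraticChar F (x - 0) * quadraticChar F (y - 0)) := by
    rw [Fintype.sum_eq_add_sum_subtype_ne _ (zSq : Sq F),
      Fintype.sum_eq_add_sum_subtype_ne (fun z : Sq F => quadraticChar F (x - (-1) / z) *
        quadraticChar F (y - (-1) / z)) (zSq : Sq F)]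
    have h3 : ∑ z : {z : Sq F // z ≠ zSq}, quadraticChar F (x * (z : Sq F) + 1) *
        quadraticChar F (y * (z : Sq F) + 1) = ∑ z : {z : Sq F // z ≠ zSq},
        quadraticChar F (x - (-1) / (z : Sq F)) * quadraticChar F (y - (-1) / (z : Sq F)) := by
      refine sum_congr rfl fun z _ => ?_
      have hz : (z.1 : F) ≠ 0 := fun h => z.2 (Subtype.ext h)
      rw [chi_sub_div3 _ z.1.2 hz, chi_sub_div3 _ z.1.2 hz]
    rw [h3]
    simp [zSq]
  rw [h2]
  linarith

theorem sum_BA3' (h4 : Fintype.card F % 4 = 3) {x y : F}
    (hx : IsSquare x) (hy : IsSquare y) (hy0 : y ≠ 0) :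
    ∑ z : Sq F, quadraticChar F (x - z) * quadraticChar F (y * z + 1) -
      ∑ z : Sq F, quadraticChar F (x * z + 1) * quadraticChar F (y - z) = 0 := by
  have hμ := neg_one_nsq h4
  have hxv : x ≠ (-1) / y := fun h => chi_div_sq hμ hy hy0 (h ▸ hx)
  have h1 := sum_split hμ (fun w => quadraticChar F (x - w) * quadraticChar F ((-1) / y - w))
  rw [sum_chi3 h4, if_neg hxv] at h1
  have hyc := chi_of_sq hy hy0
  have e1 : ∀ z : F, quadraticChar F ((-1) / y - z) = - quadraticChar F (y * z + 1) := by
    intro z
    have h3 : quadraticChar F ((-1) / y - z) * quadraticChar F y =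
        quadraticChar F (-(y * z + 1)) := by
      rw [← map_mul]
      congr 1
      field_simp
      ring
    rw [hyc, mul_one, chi3_neg h4] at h3
    exact h3
  have e2 : ∀ z : F, IsSquare z → z ≠ 0 →
      quadraticChar F ((-1) / y - (-1) / z) = quadraticChar F (y - z) := by
    intro z hz hz0
    have h3 : quadraticChar F ((-1) / y - (-1) / z) * (quadraticChar F y * quadraticChar F z) =
        quadraticChar F (y - z) := by
      rw [← map_mul, ← map_mul]
      congr 1
      field_simp
      ring
    rw [hyc, chi_of_sq hz hz0] at h3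
    linarith
  have h2 : ∑ z : Sq F, quadraticChar F (x * z + 1) * quadraticChar F (y - z) =
      1 + (∑ z : Sq F, quadraticChar F (x - (-1) / z) * quadraticChar F ((-1) / y - (-1) / z) -
        quadraticChar F (x - 0) * quadraticChar F ((-1) / y - 0)) := by
    rw [Fintype.sum_eq_add_sum_subtype_ne _ (zSq : Sq F),
      Fintype.sum_eq_add_sum_subtype_ne (fun z : Sq F => quadraticChar F (x - (-1) / z) *
        quadraticChar F ((-1) / y - (-1) / z)) (zSq : Sq F)]
    have h3 : ∑ z : {z : Sq F // z ≠ zSq}, quadraticChar F (x * (z : Sq F) + 1) *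
        quadraticChar F (y - (z : Sq F)) = ∑ z : {z : Sq F // z ≠ zSq},
        quadraticChar F (x - (-1) / (z : Sq F)) *
          quadraticChar F ((-1) / y - (-1) / (z : Sq F)) := by
      refine sum_congr rfl fun z _ => ?_
      have hz : (z.1 : F) ≠ 0 := fun h => z.2 (Subtype.ext h)
      rw [chi_sub_div3 _ z.1.2 hz, e2 _ z.1.2 hz]
    rw [h3]
    simp only [zSq, mul_zero, zero_add, map_one, sub_zero, div_zero, hyc]
    ring
  have h6 : ∑ z : Sq F, quadraticChar F (x - z) * quadraticChar F (y * z + 1) =
      - ∑ z : Sq F, quadraticChar F (x - z) * quadraticChar F ((-1) / y - z) := by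
    rw [← sum_neg_distrib]
    refine sum_congr rfl fun z _ => ?_
    rw [e1]
    ring
  rw [h2, h6]
  linarith

theorem sum_BA3 (h4 : Fintype.card F % 4 = 3) {x y : F}
    (hx : IsSquare x) (hy : IsSquare y) :
    ∑ z : Sq F, quadraticChar F (x - z) * quadraticChar F (y * z + 1) -
      ∑ z : Sq F, quadraticChar F (x * z + 1) * quadraticChar F (y - z) = 0 := by
  by_cases hy0 : y = 0
  · by_cases hx0 : x = 0
    · rw [hx0, hy0]
      rw [sub_eq_zero]
      exact sum_congr rfl fun z _ => by ring
    · have h := sum_BA3' h4 hy hx hx0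
      have e1 : ∑ z : Sq F, quadraticChar F (x - z) * quadraticChar F (y * z + 1) =
          ∑ z : Sq F, quadraticChar F (y * z + 1) * quadraticChar F (x - z) :=
        sum_congr rfl fun z _ => by ring
      have e2 : ∑ z : Sq F, quadraticChar F (x * z + 1) * quadraticChar F (y - z) =
          ∑ z : Sq F, quadraticChar F (y - z) * quadraticChar F (x * z + 1) :=
        sum_congr rfl fun z _ => by ring
      rw [e1, e2]
      linarith
  · exact sum_BA3' h4 hx hy hy0

/-- Hadamard matrices of order `8 (s + 1)` -/
theorem had_eight (h4 : Fintype.card F % 4 = 3) {s : ℕ} {K : Fin (s + 1) → Fin (s + 1) → ℤ}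
    (hK : Pool.Agent.Y342.SK.IsCore K) (hv : 2 * s = Fintype.card F + 1) :
    HasHad (8 * (s + 1)) := by
  have hμ := neg_one_nsq h4
  have hc := card_sq hμ
  have hcv : Fintype.card (Sq F) = s := by
    zify at hv ⊢
    linarith
  have hmul : ∀ x y, ∑ z, K x z * K y z = (if x = y then ((s + 1 : ℕ) : ℤ) else 0) - 1 := hK.mul
  let f : Sq F ≃ Fin s := Fintype.equivFinOfCardEq hcv
  let D : Dat2 (Sq F) :=
    { A := fun x y => quadraticChar F (x - y)
      B := fun x y => quadraticChar F (x * y + 1)
      S := fun x y => K (f x).succ (f y).succ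
      c := fun x => K 0 (f x).succ
      l := s
      A0 := fun x => by simp
      A1 := fun x y hxy => quadraticChar_dichotomy (sub_ne_zero.2 fun h => hxy (Subtype.ext h))
      B1 := fun x y => quadraticChar_dichotomy fun h => hμ (by
        have h1 : (-1 : F) = x * y := by linear_combination -h
        rw [h1]; exact x.2.mul y.2)
      As := fun x y => by rw [← chi3_neg h4]; congr 1; ring
      Bs := fun x y => by rw [mul_comm]
      AB := fun x y => by
        have h := sum_AB3 h4 (x : F) (y : F)
        rw [h]
        by_cases hxy : x = y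
        · rw [if_pos hxy, if_pos (by rw [hxy])]
          zify at hv
          linarith
        · rw [if_neg hxy, if_neg fun h' => hxy (Subtype.ext h')]
      BA := fun x y => sum_BA3 h4 x.2 y.2
      S0 := fun x => hK.diag _
      S1 := fun x y hxy => hK.sign _ _ fun h => hxy (f.injective (Fin.succ_injective _ h))
      c1 := fun x => hK.sign _ _ (Fin.succ_ne_zero _).symm
      Sr := fun x => by
        rw [Equiv.sum_comp f (fun y => K (f x).succ y.succ)]
        have h := hK.row (f x).succ
        rw [Fin.sum_univ_succ, hK.skew 0 (f x).succ] at h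
        linarith
      Sc := fun x => by
        rw [Equiv.sum_comp f (fun y => K (f x).succ y.succ * K 0 y.succ)]
        have h := hmul (f x).succ 0
        rw [Fin.sum_univ_succ, hK.diag 0, if_neg (Fin.succ_ne_zero _)] at h
        linarith
      cs := by
        rw [Equiv.sum_comp f (fun y => K 0 y.succ)]
        have h := hK.row 0
        rw [Fin.sum_univ_succ, hK.diag 0] at h
        linarith
      SS := fun x y => by
        rw [Equiv.sum_comp f (fun z => K (f x).succ z.succ * K (f y).succ z.succ)]
        have h := hmul (f x).succ (f y).succ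
        rw [Fin.sum_univ_succ, hK.skew 0 (f x).succ, hK.skew 0 (f y).succ] at h
        by_cases hxy : x = y
        · rw [if_pos (by rw [hxy])] at h
          rw [if_pos hxy]
          push_cast at h
          linarith
        · rw [if_neg fun h' => hxy (f.injective (Fin.succ_injective _ h'))] at h
          rw [if_neg hxy]
          linarith
      hcard := by rw [hcv] }
  refine D.hasHad _ ?_
  show ((8 * (s + 1) : ℕ) : ℤ) = 8 * (s : ℤ) + 8
  push_cast
  ring

end field

end Pool.Agent.R110.Had
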