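import Pool.Agent.R110.Had.Fld

/-!
# Hadamard matrices of order `4 (q + 2)` for prime powers `q = -3` modulo `2 ^ t`
-/

set_option autoImplicit false

namespace Pool.Agent.R110.Had

open Pool.Agent.H108R3.Had (HasHad)
open Pool.Agent.W851.Had (tow)

theorem main_q2 : ∃ C : ℕ, ∀ n q t : ℕ, IsPrimePow q → q ≤ tow n → 2 ^ C ^ (n + 1) ≤ t →
    2 ^ t ∣ q + 3 → HasHad (4 * (q + 2)) := by
  obtain ⟨C, hC, h⟩ := Pool.Agent.Y342.SK.main_skew
  refine ⟨C + 1, fun n q t hq hqn ht hd => ?_⟩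
  have hC1 : C ^ (n + 1) + 1 ≤ (C + 1) ^ (n + 1) := by
    have h3 : C ^ (n + 1) + 1 ^ (n + 1) ≤ (C + 1) ^ (n + 1) :=
      pow_add_pow_le (by omega : 0 ≤ C) (by omega : 0 ≤ 1) (n := n + 1) (by omega)
    simpa using h3
  have ht1 : 2 ^ C ^ (n + 1) + 1 ≤ t := by
    calc 2 ^ C ^ (n + 1) + 1 ≤ 2 ^ C ^ (n + 1) + 2 ^ C ^ (n + 1) :=
          Nat.add_le_add_left Nat.one_le_two_pow _
      _ = 2 ^ (C ^ (n + 1) + 1) := by rw [pow_succ 2 (C ^ (n + 1))]; ring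
      _ ≤ 2 ^ (C + 1) ^ (n + 1) := Nat.pow_le_pow_right (by norm_num) hC1
      _ ≤ t := ht
  obtain ⟨u, rfl⟩ : ∃ u, t = u + 1 :=
    ⟨t - 1, (Nat.sub_add_cancel (le_trans (Nat.le_add_left 1 _) ht1)).symm⟩
  have hu : 2 ^ C ^ (n + 1) ≤ u := Nat.le_of_succ_le_succ ht1
  clear ht1 ht hC1
  have hu1 : 1 ≤ u := le_trans Nat.one_le_two_pow hu
  obtain ⟨m, hm⟩ := hd
  -- `q + 3 = 2 * (v + 1)`
  obtain ⟨w, hw⟩ : ∃ w, w = 2 ^ u * m := ⟨_, rfl⟩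
  have hqw : q + 3 = 2 * w := by rw [hm, hw, pow_succ]; ring
  have h2u : 2 ∣ 2 ^ u := dvd_pow_self 2 (by omega)
  have h2w : 2 ∣ w := by rw [hw]; exact h2u.mul_right m
  have hw2 : 2 ≤ w := by
    have := hq.one_lt
    omega
  obtain ⟨v, rfl⟩ : ∃ v, w = v + 1 := ⟨w - 1, by omega⟩
  have hv : 2 ^ u ∣ v + 1 := ⟨m, hw⟩
  have hvn : v ≤ tow n := by omega
  obtain ⟨S, hS⟩ := Pool.Agent.Y342.SK.core_of h hvn hu hv
  have hq4 : q % 4 = 1 := by omega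
  obtain ⟨p, k, hp, hk, rfl⟩ := hq
  have hp' : Nat.Prime p := hp.nat_prime
  have : Fact p.Prime := ⟨hp'⟩
  have : Fintype (GaloisField p k) := Fintype.ofFinite _
  have hcard : Fintype.card (GaloisField p k) = p ^ k := by
    rw [← Nat.card_eq_fintype_card]
    exact GaloisField.card p k hk.ne'
  classical
  have h9 := had_q_add_two (F := GaloisField p k) (by rw [hcard]; exact hq4) (by norm_num)
    hS.toG (by rw [hcard]; omega)
  rwa [hcard] at h9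

end Pool.Agent.R110.Had
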