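import Pool.Agent.R110.Had.Yam

/-!
# Hadamard matrices of order `8 (s + 1)` from a conference matrix of order `s + 2` and a skew
conference matrix of order `2 s` in block form
-/

set_option autoImplicit false
set_option linter.unusedSectionVars false

namespace Pool.Agent.R110.Had

open Finset Matrix
open Pool.Agent.H108R3.Had (HasHad)

/-- the data: the skew conference matrix `[A B; -B A]` and the doubly deleted conference matrix
`S` -/
structure Dat2 (α : Type) [Fintype α] [DecidableEq α] where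
  /-- upper left block -/
  A : α → α → ℤ
  /-- upper right block -/
  B : α → α → ℤ
  /-- deleted conference matrix -/
  S : α → α → ℤ
  /-- deleted column -/
  c : α → ℤ
  /-- order -/
  l : ℤ
  A0 : ∀ x, A x x = 0
  A1 : ∀ x y, x ≠ y → A x y = 1 ∨ A x y = -1
  B1 : ∀ x y, B x y = 1 ∨ B x y = -1
  As : ∀ x y, A y x = - A x y
  Bs : ∀ x y, B y x = B x y
  AB : ∀ x y, ∑ z, A x z * A y z + ∑ z, B x z * B y z = if x = y then 2 * l - 1 else 0
  BA : ∀ x y, ∑ z, A x z * B y z - ∑ z, B x z * A y z = 0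
  S0 : ∀ x, S x x = 0
  S1 : ∀ x y, x ≠ y → S x y = 1 ∨ S x y = -1
  c1 : ∀ x, c x = 1 ∨ c x = -1
  Sr : ∀ x, ∑ y, S x y = c x
  Sc : ∀ x, ∑ y, S x y * c y = -1
  cs : ∑ x, c x = 0
  SS : ∀ x y, ∑ z, S x z * S y z = (if x = y then l + 1 else 0) - 1 - c x * c y
  hcard : (Fintype.card α : ℤ) = l

/-- type of a block of a border row -/
def xt (ρ : Bool) (j : Fin 4) : Bool := xor ρ (decide (2 ≤ j.val))

/-- signs of the blocks of `V` -/
def sV (i j : Fin 4) : ℤ :=
  (!![0, 0, 1, 1; 0, 0, 1, -1; 1, 1, 0, 0; 1, -1, 0, 0] : Matrix (Fin 4) (Fin 4) ℤ) i j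

/-- the corner -/
def F8 (m : Fin 4 × Bool) (l : Fin 4 × Bool) : ℤ :=
  match m.2, l.2 with
  | false, false => (![H4 m.1 2, H4 m.1 2, H4 m.1 3, H4 m.1 3] : Fin 4 → ℤ) l.1
  | false, true => (![-H4 m.1 0, H4 m.1 0, -H4 m.1 1, H4 m.1 1] : Fin 4 → ℤ) l.1
  | true, true => (![-H4 m.1 2, -H4 m.1 2, -H4 m.1 3, -H4 m.1 3] : Fin 4 → ℤ) l.1
  | true, false => (![H4 m.1 0, -H4 m.1 0, H4 m.1 1, -H4 m.1 1] : Fin 4 → ℤ) l.1

theorem F8_sign (m l : Fin 4 × Bool) : F8 m l = 1 ∨ F8 m l = -1 := by revert m l; decide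

theorem F8_F8 (m m' : Fin 4 × Bool) : ∑ l, F8 m l * F8 m' l = if m = m' then 8 else 0 := by
  revert m m'; decide

/-- constant part -/
def K0 (m : Fin 4 × Bool) (i : Fin 4) : ℤ :=
  ∑ j, if xt m.2 j then -(sV i j * H4 m.1 j) else 0

/-- part proportional to `c` -/
def K1 (m : Fin 4 × Bool) (i : Fin 4) : ℤ :=
  ∑ j, if xt m.2 j then 0 else sV i j * H4 m.1 j

theorem F8_K0 (m : Fin 4 × Bool) (i : Fin 4) :
    ∑ l, F8 m (l, false) * H4 i l = - (2 * K0 m i) := by revert m i; decide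

theorem F8_K1 (m : Fin 4 × Bool) (i : Fin 4) :
    ∑ l, F8 m (l, true) * H4 i l = - (2 * K1 m i) := by revert m i; decide

namespace Dat2

variable {α : Type} [Fintype α] [DecidableEq α] (D : Dat2 α)

open Dat (del sum_del_right sum_del_left del_comm)

/-- the conference type matrix -/
def U (r r' : Fin 4 × α) : ℤ :=
  (!![D.A r.2 r'.2 + del r.2 r'.2, D.B r.2 r'.2, del r.2 r'.2, del r.2 r'.2;
      -D.B r.2 r'.2, D.A r.2 r'.2 + del r.2 r'.2, -del r.2 r'.2, del r.2 r'.2;
      -del r.2 r'.2, del r.2 r'.2, del r.2 r'.2 - D.A r.2 r'.2, -D.B r.2 r'.2;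
      -del r.2 r'.2, -del r.2 r'.2, D.B r.2 r'.2, del r.2 r'.2 - D.A r.2 r'.2] :
    Matrix (Fin 4) (Fin 4) ℤ) r.1 r'.1

/-- the matrix made of the deleted conference matrix -/
def V (r r' : Fin 4 × α) : ℤ := sV r.1 r'.1 * D.S r.2 r'.2

theorem UU (r r' : Fin 4 × α) : ∑ z, D.U r z * D.U r' z =
    if r = r' then 2 * D.l + 2 else 0 := by
  obtain ⟨i, x⟩ := r
  obtain ⟨i', y⟩ := r'
  have hAB := D.AB x y
  have hBA := D.BA x y
  have hAs := D.As x y
  have hBs := D.Bs x y
  have hd : ∑ z, del x z * del y z = if x = y then 1 else 0 := by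
    rw [sum_del_left, del_comm]; rfl
  have h1 := sum_del_right (D.A x) y
  have h2 := sum_del_right (D.B x) y
  have h3 := sum_del_left (D.A y) x
  have h4 := sum_del_left (D.B y) x
  rw [Fintype.sum_prod_type]
  simp only [Fin.sum_univ_four, U, Prod.mk.injEq]
  by_cases hxy : x = y
  · subst hxy
    rw [if_pos rfl] at hAB hd
    fin_cases i <;> fin_cases i' <;>
      simp [Finset.sum_neg_distrib, add_mul, mul_add, sub_mul, mul_sub, Finset.sum_add_distrib] <;>
      linarith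
  · rw [if_neg hxy] at hAB hd
    fin_cases i <;> fin_cases i' <;>
      simp [Finset.sum_neg_distrib, hxy, add_mul, mul_add, sub_mul, mul_sub,
        Finset.sum_add_distrib] <;> linarith

theorem sV_sV (i i' : Fin 4) : ∑ j, sV i j * sV i' j = if i = i' then 2 else 0 := by
  revert i i'; decide

theorem VV (r r' : Fin 4 × α) : ∑ z, D.V r z * D.V r' z =
    if r.1 = r'.1 then 2 * ((if r.2 = r'.2 then D.l + 1 else 0) - 1 - D.c r.2 * D.c r'.2) else 0 := by
  rw [Fintype.sum_prod_type]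
  have h1 : ∀ j : Fin 4, ∑ y : α, D.V r (j, y) * D.V r' (j, y) =
      (sV r.1 j * sV r'.1 j) * ((if r.2 = r'.2 then D.l + 1 else 0) - 1 - D.c r.2 * D.c r'.2) := by
    intro j
    rw [← D.SS, mul_sum]
    exact sum_congr rfl fun y _ => by simp only [V]; ring
  rw [sum_congr rfl fun j _ => h1 j, ← sum_mul, sV_sV]
  split_ifs <;> ring

/-- the inner part -/
def X (r r' : (Fin 4 × α) × Bool) : ℤ := D.U r.1 r'.1 + sg r.2 * sg r'.2 * D.V r.1 r'.1

theorem XX (r r' : (Fin 4 × α) × Bool) : ∑ z, D.X r z * D.X r' z =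
    2 * (if r.1 = r'.1 then 2 * D.l + 2 else 0) + 2 * (sg r.2 * sg r'.2) *
      (if r.1.1 = r'.1.1 then 2 * ((if r.1.2 = r'.1.2 then D.l + 1 else 0) - 1 -
        D.c r.1.2 * D.c r'.1.2) else 0) := by
  have h1 : ∑ z, D.X r z * D.X r' z = ∑ z : Fin 4 × α, (2 * (D.U r.1 z * D.U r'.1 z)
      + 2 * (sg r.2 * sg r'.2) * (D.V r.1 z * D.V r'.1 z)) := by
    rw [Fintype.sum_prod_type]
    refine sum_congr rfl fun z _ => ?_
    rw [Fintype.sum_bool]
    simp only [X, sg]
    simp only [if_true, Bool.false_eq_true, if_false]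
    ring
  rw [h1, sum_add_distrib, ← mul_sum, ← mul_sum, UU, VV]

/-- border rows -/
def G (m : Fin 4 × Bool) (r : Fin 4 × α) : ℤ := H4 m.1 r.1 * if xt m.2 r.1 then D.c r.2 else 1

/-- border columns -/
def G' (r : Fin 4 × α) (l : Fin 4 × Bool) : ℤ := H4 r.1 l.1 * if l.2 then D.c r.2 else 1

/-- the matrix -/
def M : (Fin 4 × Bool) ⊕ ((Fin 4 × α) × Bool) → (Fin 4 × Bool) ⊕ ((Fin 4 × α) × Bool) → ℤ
  | Sum.inl m, Sum.inl l => F8 m l
  | Sum.inl m, Sum.inr r => sg r.2 * D.G m r.1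
  | Sum.inr r, Sum.inl l => sg r.2 * D.G' r.1 l
  | Sum.inr r, Sum.inr r' => D.X r r'

theorem V_G (r : Fin 4 × α) (m : Fin 4 × Bool) :
    ∑ z, D.V r z * D.G m z = K0 m r.1 + K1 m r.1 * D.c r.2 := by
  rw [Fintype.sum_prod_type]
  have h1 : ∀ j : Fin 4, ∑ y : α, D.V r (j, y) * D.G m (j, y) =
      (if xt m.2 j then -(sV r.1 j * H4 m.1 j) else 0) +
        (if xt m.2 j then 0 else sV r.1 j * H4 m.1 j) * D.c r.2 := by
    intro j
    simp only [V, G]
    cases xt m.2 j with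
    | true =>
      simp only [if_true]
      have h2 : ∑ y, sV r.1 j * D.S r.2 y * (H4 m.1 j * D.c y) =
          (sV r.1 j * H4 m.1 j) * ∑ y, D.S r.2 y * D.c y := by
        rw [mul_sum]; exact sum_congr rfl fun y _ => by ring
      rw [h2, D.Sc]; ring
    | false =>
      simp only [Bool.false_eq_true, if_false]
      have h2 : ∑ y, sV r.1 j * D.S r.2 y * (H4 m.1 j * 1) =
          (sV r.1 j * H4 m.1 j) * ∑ y, D.S r.2 y := by
        rw [mul_sum]; exact sum_congr rfl fun y _ => by ring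
      rw [h2, D.Sr]; ring
  rw [sum_congr rfl fun j _ => h1 j, sum_add_distrib, ← sum_mul]
  rfl

theorem inner_border (r : (Fin 4 × α) × Bool) (m : Fin 4 × Bool) :
    ∑ z : (Fin 4 × α) × Bool, D.X r z * (sg z.2 * D.G m z.1) =
      2 * sg r.2 * (K0 m r.1.1 + K1 m r.1.1 * D.c r.1.2) := by
  rw [← V_G, mul_sum, Fintype.sum_prod_type]
  refine sum_congr rfl fun z _ => ?_
  rw [Fintype.sum_bool]
  simp only [X, sg]
  simp only [if_true, Bool.false_eq_true, if_false]
  ring

theorem border_inner (r : (Fin 4 × α) × Bool) (m : Fin 4 × Bool) :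
    ∑ l, F8 m l * (sg r.2 * D.G' r.1 l) =
      - (2 * sg r.2 * (K0 m r.1.1 + K1 m r.1.1 * D.c r.1.2)) := by
  have h0 := F8_K0 m r.1.1
  have h1 := F8_K1 m r.1.1
  rw [Fintype.sum_prod_type]
  simp only [Fintype.sum_bool, G', if_true, Bool.false_eq_true, if_false]
  have h2 : ∑ x, (F8 m (x, true) * (sg r.2 * (H4 r.1.1 x * D.c r.1.2)) +
      F8 m (x, false) * (sg r.2 * (H4 r.1.1 x * 1))) =
      sg r.2 * D.c r.1.2 * (∑ l, F8 m (l, true) * H4 r.1.1 l) +
        sg r.2 * ∑ l, F8 m (l, false) * H4 r.1.1 l := by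
    rw [mul_sum, mul_sum, ← sum_add_distrib]
    exact sum_congr rfl fun l _ => by ring
  rw [h2, h0, h1]
  ring

theorem GG (m m' : Fin 4 × Bool) : ∑ z, D.G m z * D.G m' z = if m = m' then 4 * D.l else 0 := by
  rw [Fintype.sum_prod_type]
  have h1 : ∀ j : Fin 4, ∑ y : α, D.G m (j, y) * D.G m' (j, y) =
      H4 m.1 j * H4 m'.1 j * if m.2 = m'.2 then D.l else 0 := by
    intro j
    have hcc : ∀ y, D.c y * D.c y = 1 := fun y => by
      rcases D.c1 y with h | h <;> rw [h] <;> norm_num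
    have h2 : ∀ y, D.G m (j, y) * D.G m' (j, y) = (H4 m.1 j * H4 m'.1 j) *
        if m.2 = m'.2 then 1 else D.c y := by
      intro y
      have := hcc y
      simp only [G, xt]
      cases m.2 <;> cases m'.2 <;> by_cases hj : 2 ≤ j.val <;> simp [hj] <;>
        first | ring1 | linear_combination (H4 m.1 j * H4 m'.1 j) * this
    rw [sum_congr rfl fun y _ => h2 y, ← mul_sum]
    congr 1
    split_ifs
    · simp only [sum_const, card_univ, nsmul_eq_mul, mul_one]
      exact D.hcard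
    · exact D.cs
  rw [sum_congr rfl fun j _ => h1 j, ← sum_mul, H4_H4]
  obtain ⟨a, b⟩ := m
  obtain ⟨a', b'⟩ := m'
  by_cases h : a = a' <;> by_cases h' : b = b' <;> simp [h, h']

theorem main_row (p p' : (Fin 4 × Bool) ⊕ ((Fin 4 × α) × Bool)) :
    ∑ z, D.M p z * D.M p' z = if p = p' then 8 * D.l + 8 else 0 := by
  rw [Fintype.sum_sum_type]
  rcases p with m | r <;> rcases p' with m' | r'
  · simp only [M, Sum.inl.injEq]
    rw [F8_F8]
    have h1 : ∑ z : (Fin 4 × α) × Bool, sg z.2 * D.G m z.1 * (sg z.2 * D.G m' z.1) =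
        2 * ∑ z, D.G m z * D.G m' z := by
      rw [Fintype.sum_prod_type, mul_sum]
      refine sum_congr rfl fun z _ => ?_
      rw [Fintype.sum_bool]
      simp only [sg]
      simp only [if_true, Bool.false_eq_true, if_false]
      ring
    rw [h1, GG]
    by_cases h : m = m' <;> simp [h] <;> ring
  · simp only [M, reduceCtorEq, if_false]
    rw [border_inner]
    have := D.inner_border r' m
    have h1 : ∑ z : (Fin 4 × α) × Bool, sg z.2 * D.G m z.1 * D.X r' z =
        ∑ z : (Fin 4 × α) × Bool, D.X r' z * (sg z.2 * D.G m z.1) :=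
      sum_congr rfl fun z _ => by ring
    rw [h1, this]
    ring
  · simp only [M, reduceCtorEq, if_false]
    have h1 : ∑ l, sg r.2 * D.G' r.1 l * F8 m' l = ∑ l, F8 m' l * (sg r.2 * D.G' r.1 l) :=
      sum_congr rfl fun z _ => by ring
    rw [h1, border_inner, inner_border]
    ring
  · simp only [M, Sum.inr.injEq]
    rw [D.XX]
    have h1 : ∑ l, sg r.2 * D.G' r.1 l * (sg r'.2 * D.G' r'.1 l) =
        (sg r.2 * sg r'.2) * ((if r.1.1 = r'.1.1 then 4 else 0) *
          (1 + D.c r.1.2 * D.c r'.1.2)) := by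
      rw [← H4_H4, Fintype.sum_prod_type]
      simp only [Fintype.sum_bool, G', if_true, Bool.false_eq_true, if_false]
      rw [sum_mul, mul_sum]
      exact sum_congr rfl fun l _ => by ring
    rw [h1]
    obtain ⟨⟨i, x⟩, s⟩ := r
    obtain ⟨⟨i', x'⟩, s'⟩ := r'
    simp only [Prod.mk.injEq]
    by_cases hi : i = i' <;> by_cases hx : x = x' <;> cases s <;> cases s' <;>
      simp [sg, hi, hx] <;> ring

theorem X_sign (r r' : (Fin 4 × α) × Bool) : D.X r r' = 1 ∨ D.X r r' = -1 := by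
  obtain ⟨⟨i, x⟩, s⟩ := r
  obtain ⟨⟨i', x'⟩, s'⟩ := r'
  have hss : sg s * sg s' = 1 ∨ sg s * sg s' = -1 := by
    rcases sg_cases s with h | h <;> rcases sg_cases s' with h' | h' <;> rw [h, h'] <;> norm_num
  have hB := D.B1 x x'
  simp only [X, U, V, sV]
  by_cases hx : x = x'
  · subst hx
    have hA := D.A0 x
    have hS := D.S0 x
    fin_cases i <;> fin_cases i' <;> simp [del, hA, hS] <;> omega
  · have hA := D.A1 x x' hx
    have hS := D.S1 x x' hx
    have h1 : ∀ a : ℤ, (a = 1 ∨ a = -1) → sg s * sg s' * a = 1 ∨ sg s * sg s' * a = -1 := by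
      intro a ha
      rcases ha with h | h <;> rcases hss with h' | h' <;> rw [h, h'] <;> norm_num
    have h2 := h1 _ hS
    fin_cases i <;> fin_cases i' <;> simp [del, hx] <;> omega

theorem M_sign (p p' : (Fin 4 × Bool) ⊕ ((Fin 4 × α) × Bool)) : D.M p p' = 1 ∨ D.M p p' = -1 := by
  have hG : ∀ m z, D.G m z = 1 ∨ D.G m z = -1 := by
    intro m z
    simp only [G]
    rcases H4_sign m.1 z.1 with h | h <;> rcases D.c1 z.2 with h' | h' <;> rw [h, h'] <;>
      split_ifs <;> simp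
  have hG' : ∀ m z, D.G' m z = 1 ∨ D.G' m z = -1 := by
    intro m z
    simp only [G']
    rcases H4_sign m.1 z.1 with h | h <;> rcases D.c1 m.2 with h' | h' <;> rw [h, h'] <;>
      split_ifs <;> simp
  rcases p with m | r <;> rcases p' with m' | r'
  · exact F8_sign _ _
  · exact sg_mul_sign _ (hG _ _)
  · exact sg_mul_sign _ (hG' _ _)
  · exact D.X_sign _ _

theorem hasHad (n : ℕ) (hn : (n : ℤ) = 8 * D.l + 8) : HasHad n := by
  apply had_reindex (ι := (Fin 4 × Bool) ⊕ ((Fin 4 × α) × Bool)) _ D.M D.M_sign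
  · intro p p'
    rw [D.main_row, hn]
  · have h := D.hcard
    simp only [Fintype.card_sum, Fintype.card_prod, Fintype.card_bool, Fintype.card_fin]
    zify
    linarith

end Dat2

end Pool.Agent.R110.Had
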