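import Pool.Agent.H108R3.Had.Defs

/-!
# Hadamard matrices of order `8 l + 4` from a core of order `l` and a symmetric conference matrix of
order `2 l` in block form
-/

set_option autoImplicit false
set_option linter.unusedSectionVars false

namespace Pool.Agent.R110.Had

open Finset Matrix
open Pool.Agent.H108R3.Had (HasHad)

theorem had_reindex {ι : Type} [Fintype ι] [DecidableEq ι] {n : ℕ} (hn : Fintype.card ι = n)
    (H : ι → ι → ℤ) (h1 : ∀ i j, H i j = 1 ∨ H i j = -1)
    (h2 : ∀ i j, ∑ k, H i k * H j k = if i = j then (n : ℤ) else 0) : HasHad n := by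
  let e : ι ≃ Fin n := Fintype.equivFinOfCardEq hn
  refine ⟨Matrix.of fun i j => H (e.symm i) (e.symm j), fun i j => h1 _ _, ?_⟩
  ext i j
  rw [Matrix.mul_apply]
  simp only [Matrix.transpose_apply, Matrix.of_apply, Matrix.smul_apply]
  rw [Equiv.sum_comp e.symm (fun k => H (e.symm i) k * H (e.symm j) k), h2]
  by_cases hij : i = j
  · subst hij; simp
  · have : e.symm i ≠ e.symm j := fun h => hij (e.symm.injective h)
    simp [hij, this]

/-- sign of a boolean -/
def sg (b : Bool) : ℤ := if b then -1 else 1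

theorem sg_sq (b : Bool) : sg b * sg b = 1 := by cases b <;> rfl

theorem sg_cases (b : Bool) : sg b = 1 ∨ sg b = -1 := by cases b <;> simp [sg]

/-- the data: the symmetric conference matrix `[A B; B -A]` and the core `S` -/
structure Dat (α : Type) [Fintype α] [DecidableEq α] where
  /-- upper left block -/
  A : α → α → ℤ
  /-- upper right block -/
  B : α → α → ℤ
  /-- core -/
  S : α → α → ℤ
  /-- order -/
  l : ℤ
  A0 : ∀ x, A x x = 0
  A1 : ∀ x y, x ≠ y → A x y = 1 ∨ A x y = -1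
  B1 : ∀ x y, B x y = 1 ∨ B x y = -1
  As : ∀ x y, A y x = A x y
  Bs : ∀ x y, B y x = B x y
  AB : ∀ x y, ∑ z, A x z * A y z + ∑ z, B x z * B y z = if x = y then 2 * l - 1 else 0
  BA : ∀ x y, ∑ z, A x z * B y z - ∑ z, B x z * A y z = 0
  S0 : ∀ x, S x x = 0
  S1 : ∀ x y, x ≠ y → S x y = 1 ∨ S x y = -1
  Sr : ∀ x, ∑ y, S x y = 0
  Sc : ∀ y, ∑ x, S x y = 0
  SS : ∀ x y, ∑ z, S x z * S y z = (if x = y then l else 0) - 1
  SS' : ∀ x y, ∑ z, S z x * S z y = (if x = y then l else 0) - 1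
  hcard : (Fintype.card α : ℤ) = l

/-- the corner -/
def F4 (m l : Fin 4) : ℤ := if m = l then -1 else 1

/-- a Hadamard matrix of order four -/
def H4 (i l : Fin 4) : ℤ :=
  (!![1, 1, 1, 1; 1, 1, -1, -1; 1, -1, 1, -1; 1, -1, -1, 1] : Matrix (Fin 4) (Fin 4) ℤ) i l

/-- the border rows -/
def G4 (m i : Fin 4) : ℤ := if i = 0 then -1 else H4 i m

theorem H4_H4 (i i' : Fin 4) : ∑ l, H4 i l * H4 i' l = if i = i' then 4 else 0 := by
  revert i i'; decide

theorem F4_F4 (i i' : Fin 4) : ∑ l, F4 i l * F4 i' l = if i = i' then 4 else 0 := by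
  revert i i'; decide

theorem G4_G4 (i i' : Fin 4) : ∑ l, G4 i l * G4 i' l = if i = i' then 4 else 0 := by
  revert i i'; decide

theorem F4_H4 (m i : Fin 4) : ∑ l, F4 m l * H4 i l = - (2 * G4 m i) := by
  revert m i; decide

theorem F4_sign (i l : Fin 4) : F4 i l = 1 ∨ F4 i l = -1 := by revert i l; decide
theorem G4_sign (i l : Fin 4) : G4 i l = 1 ∨ G4 i l = -1 := by revert i l; decide
theorem H4_sign (i l : Fin 4) : H4 i l = 1 ∨ H4 i l = -1 := by revert i l; decide

theorem sg_mul_sign (s : Bool) {a : ℤ} (h : a = 1 ∨ a = -1) : sg s * a = 1 ∨ sg s * a = -1 := by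
  rcases h with h | h <;> rcases sg_cases s with h' | h' <;> rw [h, h'] <;> norm_num

namespace Dat

variable {α : Type} [Fintype α] [DecidableEq α] (D : Dat α)

/-- Kronecker delta -/
def del (x y : α) : ℤ := if x = y then 1 else 0

theorem sum_del_right (f : α → ℤ) (y : α) : ∑ z, f z * del y z = f y := by
  simp [del]

theorem sum_del_left (f : α → ℤ) (y : α) : ∑ z, del y z * f z = f y := by
  simp [del]

theorem del_comm (x y : α) : del x y = del y x := by simp only [del, eq_comm]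

/-- the conference type matrix -/
def U (r r' : Fin 4 × α) : ℤ :=
  (!![D.A r.2 r'.2, D.B r.2 r'.2, del r.2 r'.2, del r.2 r'.2;
      D.B r.2 r'.2, -D.A r.2 r'.2, -del r.2 r'.2, del r.2 r'.2;
      del r.2 r'.2, del r.2 r'.2, -D.A r.2 r'.2, -D.B r.2 r'.2;
      -del r.2 r'.2, del r.2 r'.2, -D.B r.2 r'.2, D.A r.2 r'.2] : Matrix (Fin 4) (Fin 4) ℤ) r.1 r'.1

/-- the matrix made of cores -/
def V (r r' : Fin 4 × α) : ℤ :=
  (!![del r.2 r'.2, 0, D.S r.2 r'.2, D.S r.2 r'.2;
      0, del r.2 r'.2, D.S r.2 r'.2, -D.S r.2 r'.2;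
      -D.S r'.2 r.2, -D.S r'.2 r.2, del r.2 r'.2, 0;
      -D.S r'.2 r.2, D.S r'.2 r.2, 0, del r.2 r'.2] : Matrix (Fin 4) (Fin 4) ℤ) r.1 r'.1

theorem UU (r r' : Fin 4 × α) : ∑ z, D.U r z * D.U r' z =
    if r = r' then 2 * D.l + 1 else 0 := by
  obtain ⟨i, x⟩ := r
  obtain ⟨i', y⟩ := r'
  have hAB := D.AB x y
  have hBA := D.BA x y
  have hAs := D.As x y
  have hBs := D.Bs x y
  have hd : ∑ z, del x z * del y z = if x = y then 1 else 0 := by
    rw [sum_del_left, del_comm]; rfl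
  have h1 := sum_del_right (D.A x) y
  have h2 := sum_del_right (D.B x) y
  have h3 := sum_del_left (D.A y) x
  have h4 := sum_del_left (D.B y) x
  rw [Fintype.sum_prod_type]
  simp only [Fin.sum_univ_four, U, Prod.mk.injEq]
  by_cases hxy : x = y
  · subst hxy
    rw [if_pos rfl] at hAB hd
    fin_cases i <;> fin_cases i' <;> simp [Finset.sum_neg_distrib] <;> linarith
  · rw [if_neg hxy] at hAB hd
    fin_cases i <;> fin_cases i' <;> simp [Finset.sum_neg_distrib, hxy] <;> linarith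

theorem VV (r r' : Fin 4 × α) : ∑ z, D.V r z * D.V r' z =
    (if r = r' then 2 * D.l + 1 else 0) - if r.1 = r'.1 then 2 else 0 := by
  obtain ⟨i, x⟩ := r
  obtain ⟨i', y⟩ := r'
  have hSS := D.SS x y
  have hSS' := D.SS' x y
  have hd : ∑ z, del x z * del y z = if x = y then 1 else 0 := by
    rw [sum_del_left, del_comm]; rfl
  have h1 := sum_del_right (D.S x) y
  have h2 := sum_del_right (fun z => D.S z x) y
  have h3 := sum_del_left (D.S y) x
  have h4 := sum_del_left (fun z => D.S z y) x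
  rw [Fintype.sum_prod_type]
  simp only [Fin.sum_univ_four, V, Prod.mk.injEq]
  by_cases hxy : x = y
  · subst hxy
    rw [if_pos rfl] at hSS hSS' hd
    fin_cases i <;> fin_cases i' <;> simp [Finset.sum_neg_distrib] <;> linarith
  · rw [if_neg hxy] at hSS hSS' hd
    fin_cases i <;> fin_cases i' <;> simp [Finset.sum_neg_distrib, hxy] <;> linarith

theorem V_row (r : Fin 4 × α) (j : Fin 4) : ∑ y, D.V r (j, y) = if r.1 = j then 1 else 0 := by
  obtain ⟨i, x⟩ := r
  have h1 := D.Sr x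
  have h2 := D.Sc x
  have h3 : ∑ y, del x y = 1 := by simp [del]
  simp only [V]
  fin_cases i <;> fin_cases j <;> simp [Finset.sum_neg_distrib, h1, h2, h3]

/-- the inner part -/
def X (r r' : (Fin 4 × α) × Bool) : ℤ := D.U r.1 r'.1 + sg r.2 * sg r'.2 * D.V r.1 r'.1

theorem XX (r r' : (Fin 4 × α) × Bool) : ∑ z, D.X r z * D.X r' z =
    2 * (if r.1 = r'.1 then 2 * D.l + 1 else 0) + 2 * (sg r.2 * sg r'.2) *
      ((if r.1 = r'.1 then 2 * D.l + 1 else 0) - if r.1.1 = r'.1.1 then 2 else 0) := by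
  have h1 : ∑ z, D.X r z * D.X r' z = ∑ z : Fin 4 × α, (2 * (D.U r.1 z * D.U r'.1 z)
      + 2 * (sg r.2 * sg r'.2) * (D.V r.1 z * D.V r'.1 z)) := by
    rw [Fintype.sum_prod_type]
    refine sum_congr rfl fun z _ => ?_
    rw [Fintype.sum_bool]
    simp only [X, sg]
    simp only [if_true, Bool.false_eq_true, if_false]
    ring
  rw [h1, sum_add_distrib, ← mul_sum, ← mul_sum, UU, VV]

/-- the matrix -/
def M : Fin 4 ⊕ ((Fin 4 × α) × Bool) → Fin 4 ⊕ ((Fin 4 × α) × Bool) → ℤ
  | Sum.inl m, Sum.inl l => F4 m l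
  | Sum.inl m, Sum.inr r => sg r.2 * G4 m r.1.1
  | Sum.inr r, Sum.inl l => sg r.2 * H4 r.1.1 l
  | Sum.inr r, Sum.inr r' => D.X r r'

theorem inner_border (r : (Fin 4 × α) × Bool) (m : Fin 4) :
    ∑ z : (Fin 4 × α) × Bool, D.X r z * (sg z.2 * G4 m z.1.1) = 2 * (sg r.2 * G4 m r.1.1) := by
  rw [Fintype.sum_prod_type, Fintype.sum_prod_type]
  have h1 : ∀ j : Fin 4, ∑ y : α, ∑ τ : Bool, D.X r ((j, y), τ) * (sg τ * G4 m j) =
      if r.1.1 = j then 2 * (sg r.2 * G4 m j) else 0 := by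
    intro j
    have h2 : ∀ y : α, ∑ τ : Bool, D.X r ((j, y), τ) * (sg τ * G4 m j) =
        2 * (sg r.2 * G4 m j) * D.V r.1 (j, y) := by
      intro y
      rw [Fintype.sum_bool]
      simp only [X, sg]
      simp only [if_true, Bool.false_eq_true, if_false]
      ring
    rw [sum_congr rfl fun y _ => h2 y, ← mul_sum, V_row]
    split_ifs <;> ring
  simp only
  rw [sum_congr rfl fun j _ => h1 j, sum_ite_eq]
  simp

theorem border_inner (r : (Fin 4 × α) × Bool) (m : Fin 4) :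
    ∑ l, F4 m l * (sg r.2 * H4 r.1.1 l) = - (2 * (sg r.2 * G4 m r.1.1)) := by
  have h := F4_H4 m r.1.1
  have h1 : ∑ l, F4 m l * (sg r.2 * H4 r.1.1 l) = sg r.2 * ∑ l, F4 m l * H4 r.1.1 l := by
    rw [mul_sum]
    exact sum_congr rfl fun l _ => by ring
  rw [h1, h]
  ring

theorem main_row (p p' : Fin 4 ⊕ ((Fin 4 × α) × Bool)) :
    ∑ z, D.M p z * D.M p' z = if p = p' then 8 * D.l + 4 else 0 := by
  rw [Fintype.sum_sum_type]
  rcases p with m | r <;> rcases p' with m' | r'
  · simp only [M, Sum.inl.injEq]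
    rw [F4_F4]
    have h1 : ∑ z : (Fin 4 × α) × Bool, sg z.2 * G4 m z.1.1 * (sg z.2 * G4 m' z.1.1) =
        2 * D.l * ∑ j, G4 m j * G4 m' j := by
      rw [Fintype.sum_prod_type, Fintype.sum_prod_type, mul_sum]
      refine sum_congr rfl fun j _ => ?_
      have h2 : ∀ y : α, ∑ τ : Bool, sg ((j, y), τ).2 * G4 m ((j, y), τ).1.1 *
          (sg ((j, y), τ).2 * G4 m' ((j, y), τ).1.1) = 2 * (G4 m j * G4 m' j) := by
        intro y
        rw [Fintype.sum_bool]
        simp only [sg]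
        simp only [if_true, Bool.false_eq_true, if_false]
        ring
      rw [sum_congr rfl fun y _ => h2 y, sum_const, card_univ, nsmul_eq_mul, D.hcard]
      ring
    rw [h1, G4_G4]
    by_cases h : m = m' <;> simp [h] <;> ring
  · simp only [M, reduceCtorEq, if_false]
    rw [border_inner]
    have := D.inner_border r' m
    have h1 : ∑ z : (Fin 4 × α) × Bool, sg z.2 * G4 m z.1.1 * D.X r' z =
        ∑ z : (Fin 4 × α) × Bool, D.X r' z * (sg z.2 * G4 m z.1.1) :=
      sum_congr rfl fun z _ => by ring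
    rw [h1, this]
    ring
  · simp only [M, reduceCtorEq, if_false]
    have h1 : ∑ l, sg r.2 * H4 r.1.1 l * F4 m' l = ∑ l, F4 m' l * (sg r.2 * H4 r.1.1 l) :=
      sum_congr rfl fun z _ => by ring
    rw [h1, border_inner, inner_border]
    ring
  · simp only [M, Sum.inr.injEq]
    rw [D.XX]
    have h1 : ∑ l, sg r.2 * H4 r.1.1 l * (sg r'.2 * H4 r'.1.1 l) =
        (sg r.2 * sg r'.2) * if r.1.1 = r'.1.1 then 4 else 0 := by
      rw [← H4_H4, mul_sum]
      exact sum_congr rfl fun l _ => by ring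
    rw [h1]
    obtain ⟨⟨i, x⟩, s⟩ := r
    obtain ⟨⟨i', x'⟩, s'⟩ := r'
    simp only [Prod.mk.injEq]
    by_cases hi : i = i' <;> by_cases hx : x = x' <;> cases s <;> cases s' <;>
      simp [sg, hi, hx] <;> ring

theorem X_sign (r r' : (Fin 4 × α) × Bool) : D.X r r' = 1 ∨ D.X r r' = -1 := by
  obtain ⟨⟨i, x⟩, s⟩ := r
  obtain ⟨⟨i', x'⟩, s'⟩ := r'
  have hss : sg s * sg s' = 1 ∨ sg s * sg s' = -1 := by
    rcases sg_cases s with h | h <;> rcases sg_cases s' with h' | h' <;> rw [h, h'] <;> norm_num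
  have hB := D.B1 x x'
  simp only [X, U, V]
  by_cases hx : x = x'
  · subst hx
    have hA := D.A0 x
    have hS := D.S0 x
    fin_cases i <;> fin_cases i' <;> simp [del, hA, hS] <;> omega
  · have hA := D.A1 x x' hx
    have hS := D.S1 x x' hx
    have hS' := D.S1 x' x (Ne.symm hx)
    have h1 : ∀ a : ℤ, (a = 1 ∨ a = -1) → sg s * sg s' * a = 1 ∨ sg s * sg s' * a = -1 := by
      intro a ha
      rcases ha with h | h <;> rcases hss with h' | h' <;> rw [h, h'] <;> norm_num
    have h2 := h1 _ hS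
    have h3 := h1 _ hS'
    fin_cases i <;> fin_cases i' <;> simp [del, hx] <;> omega

theorem M_sign (p p' : Fin 4 ⊕ ((Fin 4 × α) × Bool)) : D.M p p' = 1 ∨ D.M p p' = -1 := by
  rcases p with m | r <;> rcases p' with m' | r'
  · exact F4_sign _ _
  · exact sg_mul_sign _ (G4_sign _ _)
  · exact sg_mul_sign _ (H4_sign _ _)
  · exact D.X_sign _ _

theorem hasHad (n : ℕ) (hn : (n : ℤ) = 8 * D.l + 4) : HasHad n := by
  apply had_reindex (ι := Fin 4 ⊕ ((Fin 4 × α) × Bool)) _ D.M D.M_sign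
  · intro p p'
    rw [D.main_row, hn]
  · have h := D.hcard
    simp only [Fintype.card_sum, Fintype.card_prod, Fintype.card_bool, Fintype.card_fin]
    zify
    linarith

end Dat

end Pool.Agent.R110.Had
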